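import Pool.Agent.Lib.MP_d28408_gt.CubicMain

/-!
Degree three and six branch points (the case of generic projections of smooth cubic surfaces): for every
fibre monodromy `θ`, no factorization of the full twist into half-twists, squares and cubes of
half-twists lying in the liftable braid group generates the liftable braid group.
-/

namespace Pool.Agent.Results.MP_d28408_gt.CubicNegative

open MPd28408

theorem result (θ : FreeGroup (Fin 6) →* Equiv.Perm (Fin 3))
    (hθ : IsFibreMonodromy θ) (ρ : List (Braid 6)) (hρ : IsFactorization θ ρ) :
    Subgroup.closure {b | b ∈ ρ} < liftable θ := by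
  refine lt_of_le_of_ne ?_ (Cubic.cubic_main hθ hρ)
  rw [Subgroup.closure_le]
  intro b hb
  exact (hρ.2 b hb).1

end Pool.Agent.Results.MP_d28408_gt.CubicNegative
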