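import Pool.Agent.Lib.MP_d28408_gt.Planar

/-!
For every `N ≥ 4` and every fibre monodromy `θ` of degree `N` with `d = 2 N - 2` branch points, no
factorization of the full twist into half-twists, squares and cubes of half-twists lying in the
liftable braid group generates the liftable braid group.
-/

namespace Pool.Agent.Results.MP_d28408_gt.PlanarNegative

open MPd28408

theorem result (N : ℕ) (hN : 4 ≤ N) (θ : FreeGroup (Fin (2 * N - 2)) →* Equiv.Perm (Fin N))
    (hθ : IsFibreMonodromy θ) (ρ : List (Braid (2 * N - 2))) (hρ : IsFactorization θ ρ) :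
    Subgroup.closure {b | b ∈ ρ} < liftable θ := by
  have h : Planar θ := ⟨hθ.1, IsTrans.of_surjective hθ.2.1, hθ.2.2, by omega, by omega⟩
  refine lt_of_le_of_ne ?_ (planar_main h hN ?_ hρ.1)
  · rw [Subgroup.closure_le]
    intro b hb
    exact (hρ.2 b hb).1
  · intro b hb
    obtain ⟨h1, x, hx, h2⟩ := hρ.2 b hb
    refine ⟨h1, ?_⟩
    rcases h2 with h2 | h2 | h2
    · exact ⟨x, 1, hx, by rw [h2, pow_one]⟩
    · exact ⟨x, 2, hx, h2⟩
    · exact ⟨x, 3, hx, h2⟩

end Pool.Agent.Results.MP_d28408_gt.PlanarNegative
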